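import Pool.Agent.Helper76.PC.Stmts

/-!
MP_c33217_co, module FULL: a record with all neighbours known.
-/

set_option autoImplicit false

namespace Pool.Agent.Helper76.PC

theorem st_FULL (h : ST_LST) : ST_FULL := by
  intro G φ f K hE r hr
  have hnd : (r.nb.map φ).Nodup := by
    refine (List.nodup_map_iff_inj_on (hE.nd r hr)).2 ?_
    intro x hx y hy hxy
    obtain ⟨q, hq, hqx⟩ := hE.cl r hr x hx
    obtain ⟨p, hp, hpy⟩ := hE.cl r hr y hy
    have h1 := hE.inj q hq p hp (by rw [hqx, hpy]; exact hxy)
    rw [← hqx, ← hpy]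
    exact h1
  have hsub : (r.nb.map φ).toFinset ⊆ G.N (φ r.id) := by
    intro x hx
    rw [List.mem_toFinset, List.mem_map] at hx
    obtain ⟨y, hy, rfl⟩ := hx
    exact hE.adj r hr y hy
  have hcard : (r.nb.map φ).toFinset.card = r.nb.length := by
    rw [List.toFinset_card_of_nodup hnd, List.length_map]
  have hle : r.nb.length ≤ (G.N (φ r.id)).card := by
    rw [← hcard]
    exact Finset.card_le_card hsub
  refine ⟨hnd, hle, ?_⟩
  intro hf
  have hlen : r.hi = r.nb.length := by
    unfold full at hf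
    have h2 := Nat.eq_of_beq_eq_true hf
    rw [h2, h.2.1]
  have hhi := hE.hi r hr
  have hc : (G.N (φ r.id)).card = r.hi := by omega
  have heq : (r.nb.map φ).toFinset = G.N (φ r.id) :=
    Finset.eq_of_subset_of_card_le hsub (by rw [hcard]; omega)
  refine ⟨hc, hlen, ?_⟩
  intro x
  rw [← heq, List.mem_toFinset, List.mem_map]

end Pool.Agent.Helper76.PC
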